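import Pool.Agent.H.MP_485bb6_lc.A

namespace Pool.Agent.Results.MP_485bb6_lc.Complete

open Pool.Agent.Lib.CX Pool.Agent.Lib.ER

/-- the Minkowski form on `ℝ × ℝ^d` -/
def mink {d : ℕ} (x y : ℝ × (Fin d → ℝ)) : ℝ := x.1 * y.1 - ∑ i, x.2 i * y.2 i

/-- hyperbolic `d`-space: the upper sheet of the hyperboloid -/
def Hyp (d : ℕ) : Type := {x : ℝ × (Fin d → ℝ) // mink x x = 1 ∧ 0 < x.1}

/-- the hyperbolic metric of curvature `-1` -/
noncomputable def rho {d : ℕ} (x y : Hyp d) : ℝ := Real.arcosh (mink x.1 y.1)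

/-- `a` is a unit ball graph in hyperbolic `d`-space -/
def UBG (d : ℕ) (a : Gr) : Prop :=
  ∃ r : ℝ, 0 < r ∧ ∃ c : Fin a.n → Hyp d, ∀ u v, u ≠ v → (a.G.Adj u v ↔ rho (c u) (c v) ≤ 2 * r)

theorem result (d : ℕ) (hd : 3 ≤ d) :
    Red (UBG d) ETR ∧ ∀ (α : Type) [Enc α] (A : α → Prop), Red A ETR → Red A (UBG d) := by
  have p : ∀ x y : Hyp d, 0 < mink x.1 y.1 := fun ⟨x, a, b⟩ ⟨y, c, e⟩ => by
    have := Finset.sum_mul_sq_le_sq_mul_sq Finset.univ x.2 y.2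
    have p1 : 0 ≤ ∑ i, x.2 i * x.2 i := Finset.sum_nonneg fun _ _ => mul_self_nonneg _
    have p2 : 0 ≤ ∑ i, y.2 i * y.2 i := Finset.sum_nonneg fun _ _ => mul_self_nonneg _
    simp only [mink, sq] at *
    refine sub_pos.2 (lt_of_mul_self_lt_mul_self₀ (mul_pos b e).le ?_)
    rw [mul_mul_mul_comm, sub_eq_iff_eq_add.1 a, sub_eq_iff_eq_add.1 c]
    nlinarith
  have k : ∀ (x y : Hyp d) (r : ℝ), 0 < r → (rho x y ≤ 2 * r ↔ mink x.1 y.1 ≤ Real.cosh (2 * r)) := fun x y r h => by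
    rw [← Real.arcosh_le_arcosh (p x y) (Real.cosh_pos _), Real.arcosh_cosh (by linarith), rho]
  have e : UBG d = H.MP_485bb6_lc.UB d := funext fun a => propext ⟨fun ⟨r, h, c, q⟩ =>
    ⟨Real.cosh (2 * r), Real.one_lt_cosh.2 (by linarith), fun u => (c u).1, fun u => (c u).2,
      fun u v t => (q u v t).trans (k _ _ r h)⟩, fun ⟨K, h, c, q, s⟩ => by
    have := Real.arcosh_pos h
    refine ⟨Real.arcosh K / 2, by linarith, fun u => ⟨c u, q u⟩, fun u v t => (s u v t).trans ?_⟩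
    rw [k _ _ _ (by linarith), mul_div_cancel₀ _ two_ne_zero, Real.cosh_arcosh h.le]
    rfl⟩
  rw [e]
  obtain ⟨g, hg, h⟩ := H.MP_485bb6_lc.hard d (by omega)
  exact ⟨H.MP_485bb6_lc.memb d, fun α _ A ⟨f, hf, h'⟩ =>
    ⟨fun a => g (f a), hg.comp hf, fun a => (h' a).trans (h _)⟩⟩

end Pool.Agent.Results.MP_485bb6_lc.Complete
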